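import Pool.Agent.Y958.SP.Stm

set_option autoImplicit false

/-! Project SP, part INCD: increments of the divisor correlations. -/

namespace Pool.Agent.Y108.SP
open Finset
open Pool.Agent.H807R2.Dav
open Pool.Agent.TH212.DV
open Pool.Agent.TH212.PS
open Pool.Agent.Y958.SP

lemma log_large (c : ℝ) : ∃ N₀ : ℕ, ∀ N : ℕ, N₀ ≤ N → c ≤ Real.log N := by
  have h : Filter.Tendsto (fun n : ℕ => Real.log (n : ℝ)) Filter.atTop Filter.atTop :=
    Real.tendsto_log_atTop.comp tendsto_natCast_atTop_atTop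
  obtain ⟨N₀, h0⟩ := Filter.eventually_atTop.1 (h.eventually_ge_atTop c)
  exact ⟨N₀, h0⟩

lemma icc_split (x x' : ℕ) (hxx : x ≤ x') (f : ℕ → ℝ) : ∑ n ∈ Icc 1 x', f n - ∑ n ∈ Icc 1 x, f n = ∑ n ∈ Ioc x x', f n := by
  have h1 : Icc 1 x' = Icc 1 x ∪ Ioc x x' := by
    ext n
    rw [mem_union, mem_Icc, mem_Icc, mem_Ioc]
    omega
  have h2 : Disjoint (Icc 1 x) (Ioc x x') := by
    rw [disjoint_left]
    intro n h2 h3
    rw [mem_Icc] at h2
    rw [mem_Ioc] at h3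
    omega
  rw [h1, sum_union h2, add_sub_cancel_left]

theorem incd (h4 : M4) : INCD := by
  intro t
  obtain ⟨C, n1, h1⟩ := h4 t
  obtain ⟨n2, h2⟩ := log_large 1
  refine ⟨C, n1 + n2 + 1, fun N hN x x' hxx hx' h hh => ?_⟩
  have a1 := h1 N (by omega)
  have a2 : (1 : ℝ) ≤ Real.log N := h2 N (by omega)
  have hhb := abs_le.1 hh
  have hxr : (x : ℝ) ≤ x' := by exact_mod_cast hxx
  have hN0 : (0 : ℝ) ≤ N := Nat.cast_nonneg _
  obtain ⟨d, hd⟩ : ∃ d : ℕ → ℝ, d = fun n => (dk (t + 2) n : ℝ) := ⟨_, rfl⟩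
  have hd0 : d 0 = 0 := by rw [hd]; show ((dk (t + 2) 0 : ℕ) : ℝ) = 0; rw [Pool.Agent.TH212.PS.dk_zero, Nat.cast_zero]
  have hdn : ∀ n, 0 ≤ d n := by intro n; rw [hd]; exact Nat.cast_nonneg _
  have a3 : ∑ n ∈ Icc 1 (2 * N), d n ^ 4 ≤ N * Real.log N ^ C := by rw [hd]; exact a1
  have e1 : Dr (t + 2) x' h - Dr (t + 2) x h = ∑ n ∈ Ioc x x', d n * d ((n : ℤ) + h).toNat := by
    rw [hd]
    unfold Dr
    exact icc_split x x' hxx _
  have cs : (∑ n ∈ Ioc x x', d n * d ((n : ℤ) + h).toNat) ^ 2 ≤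
      ((x' : ℝ) - x) * ∑ n ∈ Ioc x x', (d n * d ((n : ℤ) + h).toNat) ^ 2 := by
    have := sq_sum_le_card_mul_sum_sq (s := Ioc x x') (f := fun n => d n * d ((n : ℤ) + h).toNat)
    rw [Nat.card_Ioc, Nat.cast_sub hxx] at this
    exact this
  have f1 : ∑ n ∈ Ioc x x', (d n * d ((n : ℤ) + h).toNat) ^ 2 ≤
      ∑ n ∈ Ioc x x', (d n ^ 4 / 2 + d ((n : ℤ) + h).toNat ^ 4 / 2) := by
    apply sum_le_sum
    intro n _
    nlinarith [sq_nonneg (d n ^ 2 - d ((n : ℤ) + h).toNat ^ 2)]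
  have f2 : ∑ n ∈ Ioc x x', d n ^ 4 ≤ ∑ n ∈ Icc 1 (2 * N), d n ^ 4 := by
    apply sum_le_sum_of_subset_of_nonneg
    · intro n hn
      rw [mem_Ioc] at hn
      rw [mem_Icc]
      omega
    · intro n _ _
      have := hdn n
      positivity
  have f3 : ∑ n ∈ Ioc x x', d ((n : ℤ) + h).toNat ^ 4 ≤ ∑ n ∈ Icc 1 (2 * N), d n ^ 4 := by
    have g1 : ∑ n ∈ Ioc x x', d ((n : ℤ) + h).toNat ^ 4 =
        ∑ n ∈ (Ioc x x').filter (fun n : ℕ => 1 ≤ (n : ℤ) + h), d ((n : ℤ) + h).toNat ^ 4 := by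
      rw [sum_filter]
      apply sum_congr rfl
      intro n _
      split_ifs with hc
      · rfl
      · have : ((n : ℤ) + h).toNat = 0 := by omega
        rw [this, hd0]
        norm_num
    have g2 : ∑ n ∈ (Ioc x x').filter (fun n : ℕ => 1 ≤ (n : ℤ) + h), d ((n : ℤ) + h).toNat ^ 4 =
        ∑ m ∈ ((Ioc x x').filter (fun n : ℕ => 1 ≤ (n : ℤ) + h)).image (fun n : ℕ => ((n : ℤ) + h).toNat), d m ^ 4 := by
      rw [sum_image]
      intro a ha b hb hab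
      have ha' := (mem_filter.1 ha).2
      have hb' := (mem_filter.1 hb).2
      have hab' : ((a : ℤ) + h).toNat = ((b : ℤ) + h).toNat := hab
      omega
    rw [g1, g2]
    apply sum_le_sum_of_subset_of_nonneg
    · intro m hm
      rw [mem_image] at hm
      obtain ⟨n, hn, rfl⟩ := hm
      rw [mem_filter, mem_Ioc] at hn
      rw [mem_Icc]
      have : (n : ℤ) ≤ N := by exact_mod_cast hn.1.2.trans hx'
      omega
    · intro n _ _
      have := hdn n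
      positivity
  have f4 : ∑ n ∈ Ioc x x', (d n * d ((n : ℤ) + h).toNat) ^ 2 ≤ N * Real.log N ^ C := by
    rw [sum_add_distrib, ← sum_div, ← sum_div] at f1
    linarith
  have hL0 : 0 ≤ Real.log N ^ C := by positivity
  have hL1 : 1 ≤ Real.log N ^ C := one_le_pow₀ a2
  have f5 : (∑ n ∈ Ioc x x', d n * d ((n : ℤ) + h).toNat) ^ 2 ≤ (((x' : ℝ) - x) * N) * Real.log N ^ C := by
    refine cs.trans ((mul_le_mul_of_nonneg_left f4 (by linarith)).trans (le_of_eq ?_))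
    ring
  have f6 := Real.abs_le_sqrt f5
  rw [Real.sqrt_mul (mul_nonneg (by linarith) hN0)] at f6
  rw [e1]
  refine f6.trans (mul_le_mul_of_nonneg_left ?_ (Real.sqrt_nonneg _))
  rw [Real.sqrt_le_left hL0]
  nlinarith

end Pool.Agent.Y108.SP
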