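import Pool.Agent.Y958.SP.Stm
import Pool.Agent.Y108.SP.Incd

set_option autoImplicit false

/-! Project SP, part INCM: increments of the main term. -/

namespace Pool.Agent.Y108.SP
open Finset
open Pool.Agent.H807R2.Dav
open Pool.Agent.TH212.DV
open Pool.Agent.TH212.PS
open Pool.Agent.Y958.SP

lemma mn_inc (W : ℕ → ℝ) (hW : ∀ a, 0 ≤ W a) (Y D z x x' : ℕ) (h : ℤ) (hxx : x ≤ x') :
    |Mn W Y D z x' h - Mn W Y D z x h| ≤ ((x' : ℝ) - x) * ∑ q ∈ Icc 1 z, (q : ℝ) * RR W D q ^ 2 := by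
  have hxx' : (x : ℝ) ≤ x' := by exact_mod_cast hxx
  unfold Mn
  rw [← sum_sub_distrib, mul_sum]
  refine (abs_sum_le_sum_abs _ _).trans (sum_le_sum ?_)
  intro q hq
  have hq' := mem_Icc.1 hq
  have hq0 : (0 : ℝ) < q := by exact_mod_cast hq'.1
  rw [← mul_sub, icc_split x x' hxx, abs_mul]
  have h4 : |∑ n ∈ Ioc x x', ww W Y D q n * ww W Y D q ((n : ℤ) + h).toNat| ≤ ((x' : ℝ) - x) * (RR W D q * RR W D q) := by
    refine (abs_sum_le_sum_abs _ _).trans ?_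
    have h5 : ∀ n ∈ Ioc x x', |ww W Y D q n * ww W Y D q ((n : ℤ) + h).toNat| ≤ RR W D q * RR W D q := by
      intro n _
      rw [abs_mul, abs_of_nonneg (ww_nonneg W hW _ _ _ _), abs_of_nonneg (ww_nonneg W hW _ _ _ _)]
      exact mul_le_mul (ww_le W hW _ _ _ _) (ww_le W hW _ _ _ _) (ww_nonneg W hW _ _ _ _)
        ((ww_nonneg W hW Y D q n).trans (ww_le W hW _ _ _ _))
    refine (sum_le_sum h5).trans (le_of_eq ?_)
    rw [sum_const, Nat.card_Ioc, nsmul_eq_mul, Nat.cast_sub hxx]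
  calc |(cz q h : ℝ)| * |∑ n ∈ Ioc x x', ww W Y D q n * ww W Y D q ((n : ℤ) + h).toNat| ≤
        q * (((x' : ℝ) - x) * (RR W D q * RR W D q)) :=
        mul_le_mul (abs_cz_le q hq'.1 h) h4 (abs_nonneg _) hq0.le
    _ = _ := by ring

theorem incm : INCM := by
  intro t κ hκ0 hκ
  obtain ⟨n1, h1⟩ := par_bounds t κ hκ0 hκ
  obtain ⟨m, hm⟩ : ∃ m : ℕ, m = 2 * t + 2 + 2 ^ (2 * t + 2) := ⟨_, rfl⟩
  obtain ⟨n2, h2⟩ := log_large (2 + ((t : ℝ) + 2) ^ 2 * 2 ^ m)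
  refine ⟨m + 1, n1 + n2 + 1, fun N hN Y z hp x x' hxx hx' h => ?_⟩
  obtain ⟨b1, _, _, b4, _, _, b7, b8⟩ := h1 N (by omega) Y z hp
  have a2 := h2 N (by omega)
  obtain ⟨L, hL⟩ : ∃ L : ℝ, L = Real.log N := ⟨_, rfl⟩
  rw [← hL] at a2 ⊢
  have hL2 : 2 ≤ L := by
    have : 0 ≤ ((t : ℝ) + 2) ^ 2 * 2 ^ m := by positivity
    linarith
  have hLm : ((t : ℝ) + 2) ^ 2 * 2 ^ m ≤ L := by linarith
  have hxx' : (x : ℝ) ≤ x' := by exact_mod_cast hxx
  have hN1 : 1 ≤ N := by omega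
  have hN0 : (0 : ℝ) < N := by exact_mod_cast hN1
  have hlog : ∀ k : ℕ, k ≤ 2 * N → 1 + Real.log k ≤ 2 * L := by
    intro k hk
    rcases Nat.eq_zero_or_pos k with h0 | h0
    · rw [h0]
      simp only [Nat.cast_zero, Real.log_zero]
      linarith
    · have hk0 : (0 : ℝ) < k := by exact_mod_cast h0
      have : Real.log k ≤ Real.log (2 * N) := Real.log_le_log hk0 (by exact_mod_cast hk)
      rw [Real.log_mul (by norm_num) hN0.ne', ← hL] at this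
      have l2 : Real.log 2 ≤ 1 := by
        have := Real.log_two_lt_d9
        linarith
      linarith
  obtain ⟨D, hD⟩ : ∃ D : ℕ, D = 2 * N / Y := ⟨_, rfl⟩
  rw [← hD] at b7 b8 ⊢
  refine (mn_inc (WE Y t) (WE_nonneg Y t) Y D z x x' h hxx).trans ?_
  apply mul_le_mul_of_nonneg_left _ (by linarith)
  have hlD := hlog D b8
  have hlz := hlog z (b7.trans b8)
  have hlD0 : 0 ≤ 1 + Real.log D := by have := Real.log_natCast_nonneg D; linarith
  have hlz0 : 0 ≤ 1 + Real.log z := by have := Real.log_natCast_nonneg z; linarith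
  have g3 : ∀ q ∈ Icc 1 z, (q : ℝ) * RR (WE Y t) D q ^ 2 ≤
      (((t : ℝ) + 2) * (2 * L) ^ (t + 1)) ^ 2 * ((q.divisors.card : ℝ) ^ (2 * t + 2) / q) := by
    intro q hq
    have hq' := mem_Icc.1 hq
    have hq0 : (0 : ℝ) < q := by exact_mod_cast hq'.1
    have r0 := RR_le (WE Y t) ((t : ℝ) + 2) t D q (WE_le Y t) (by positivity) hq'.1
    have r1 : 0 ≤ RR (WE Y t) D q := (ww_nonneg (WE Y t) (WE_nonneg Y t) Y D q 0).trans (ww_le (WE Y t) (WE_nonneg Y t) Y D q 0)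
    have r2 : (dk (t + 1) q : ℝ) ≤ (q.divisors.card : ℝ) ^ (t + 1) := by exact_mod_cast dk_le_tau (t + 1) q
    have r3 : RR (WE Y t) D q ≤ ((t : ℝ) + 2) * ((q.divisors.card : ℝ) ^ (t + 1) / q) * (2 * L) ^ (t + 1) := by
      refine r0.trans ?_
      apply mul_le_mul
      · apply mul_le_mul_of_nonneg_left _ (by positivity)
        exact div_le_div_of_nonneg_right r2 hq0.le
      · exact pow_le_pow_left₀ hlD0 hlD _
      · positivity
      · positivity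
    calc (q : ℝ) * RR (WE Y t) D q ^ 2 ≤ q * (((t : ℝ) + 2) * ((q.divisors.card : ℝ) ^ (t + 1) / q) * (2 * L) ^ (t + 1)) ^ 2 := by
          apply mul_le_mul_of_nonneg_left _ hq0.le
          exact pow_le_pow_left₀ r1 r3 2
      _ = (((t : ℝ) + 2) * (2 * L) ^ (t + 1)) ^ 2 * (((q.divisors.card : ℝ) ^ (t + 1)) ^ 2 / q) := by
          field_simp
      _ = _ := by
          rw [← pow_mul]
          congr 3
          ring
  refine (sum_le_sum g3).trans ?_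
  rw [← mul_sum]
  have g4 := Pool.Agent.TH212.PL.tau_pow_div (2 * t + 2) z
  have g5 : (1 + Real.log z) ^ (2 ^ (2 * t + 2)) ≤ (2 * L) ^ (2 ^ (2 * t + 2)) := pow_le_pow_left₀ hlz0 hlz _
  have hL0 : 0 ≤ L := by linarith
  calc (((t : ℝ) + 2) * (2 * L) ^ (t + 1)) ^ 2 * ∑ q ∈ Icc 1 z, (q.divisors.card : ℝ) ^ (2 * t + 2) / q ≤
        (((t : ℝ) + 2) * (2 * L) ^ (t + 1)) ^ 2 * (2 * L) ^ (2 ^ (2 * t + 2)) :=
        mul_le_mul_of_nonneg_left (g4.trans g5) (by positivity)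
    _ = (((t : ℝ) + 2) ^ 2 * 2 ^ m) * L ^ m := by
        rw [hm, pow_add (2 : ℝ), pow_add L, mul_pow, mul_pow, mul_pow]
        ring
    _ ≤ L * L ^ m := mul_le_mul_of_nonneg_right hLm (by positivity)
    _ = L ^ (m + 1) := by ring

end Pool.Agent.Y108.SP
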